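import Pool.Agent.R267.ChMain

set_option autoImplicit false
set_option synthInstance.maxHeartbeats 400000

/-!
# MP_f9d380_an, Q1 and Q2: the Chebyshev greedy parameter does not control linearly the
quasi-greedy and squeeze symmetry parameters, and the known exponent `2` is optimal
-/

namespace Pool.Agent.Results.MP_f9d380_an.ExponentTwoSharp

section Defs

variable {𝕜 : Type} [RCLike 𝕜] {X : Type} [AddCommGroup X] [Module 𝕜 X]

/-- `q` is a `p`-norm on `X` and `X` is complete for it (`p = 1`: a Banach space) -/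
structure IsPBanach (𝕜 : Type) [RCLike 𝕜] {X : Type} [AddCommGroup X] [Module 𝕜 X]
    (p : ℝ) (q : X → ℝ) : Prop where
  nonneg : ∀ x, 0 ≤ q x
  eq_zero : ∀ x, q x = 0 → x = 0
  smul : ∀ (c : 𝕜) (x : X), q (c • x) = ‖c‖ * q x
  add : ∀ x y, q (x + y) ^ p ≤ q x ^ p + q y ^ p
  complete : ∀ u : ℕ → X, (∀ ε : ℝ, 0 < ε → ∃ N, ∀ m, N ≤ m → ∀ n, N ≤ n → q (u m - u n) < ε) →
    ∃ y, ∀ ε : ℝ, 0 < ε → ∃ N, ∀ n, N ≤ n → q (u n - y) < ε

/-- the projection `P_A f` -/
noncomputable def proj (x : ℕ → X) (xs : ℕ → X →ₗ[𝕜] 𝕜) (A : Finset ℕ) (f : X) : X :=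
  ∑ n ∈ A, xs n f • x n

/-- `x` is a Schauder basis with coordinate functionals `xs`; `x` and `xs` are bounded by `1` -/
structure IsNormalizedSchauderBasis (q : X → ℝ) (x : ℕ → X) (xs : ℕ → X →ₗ[𝕜] 𝕜) : Prop where
  dense : ∀ (f : X) (ε : ℝ), 0 < ε → ∃ g ∈ Submodule.span 𝕜 (Set.range x), q (f - g) < ε
  biorth : ∀ n k, xs n (x k) = if n = k then 1 else 0
  total : ∀ f, (∀ n, xs n f = 0) → f = 0
  norm_one : ∀ n, q (x n) = 1
  dual_le_one : ∀ n f, ‖xs n f‖ ≤ q f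
  partial_sums : ∃ K : ℝ, ∀ m f, q (proj x xs (Finset.range m) f) ≤ K * q f

/-- `A` is a greedy set of `f` -/
def IsGreedySet (xs : ℕ → X →ₗ[𝕜] 𝕜) (f : X) (A : Finset ℕ) : Prop :=
  ∀ n ∈ A, ∀ k ∉ A, ‖xs k f‖ ≤ ‖xs n f‖

/-- `C` is admissible in the definition of `𝐠_m`, that is, `𝐠_m ≤ C` -/
def QuasiGreedyBound (q : X → ℝ) (x : ℕ → X) (xs : ℕ → X →ₗ[𝕜] 𝕜) (m : ℕ) (C : ℝ) : Prop :=
  ∀ (f : X) (A : Finset ℕ), IsGreedySet xs f A → A.card ≤ m → q (proj x xs A f) ≤ C * q f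

/-- `C` is admissible in the definition of `𝛌_m`, that is, `𝛌_m ≤ C` -/
def SqueezeSymmetryBound (q : X → ℝ) (x : ℕ → X) (xs : ℕ → X →ₗ[𝕜] 𝕜) (m : ℕ) (C : ℝ) : Prop :=
  ∀ (f : X) (A B : Finset ℕ) (ε : ℕ → 𝕜) (α : ℝ), (∀ n ∈ A, ‖ε n‖ = 1) → IsGreedySet xs f B →
    B.card = A.card → A.card ≤ m → (∀ n ∈ B, α ≤ ‖xs n f‖) → (∃ n ∈ B, α = ‖xs n f‖) →
      α * q (∑ n ∈ A, ε n • x n) ≤ C * q f

/-- `L` is admissible in the definition of `𝐋_m^ch`, that is, `𝐋_m^ch ≤ L`: for every greedy set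
`A` of `f` with `m` elements (whatever the rule for ties) the best approximation of `f` from the
span of `x n`, `n ∈ A`, is at most `L` times as bad as any `m`-term approximation -/
def ChebyshevBound (q : X → ℝ) (x : ℕ → X) (xs : ℕ → X →ₗ[𝕜] 𝕜) (m : ℕ) (L : ℝ) : Prop :=
  ∀ (f : X) (A : Finset ℕ), IsGreedySet xs f A → A.card = m →
    ∀ (B : Finset ℕ) (b : ℕ → 𝕜), B.card ≤ m →
      ∃ a : ℕ → 𝕜, q (f - ∑ n ∈ A, a n • x n) ≤ L * q (f - ∑ n ∈ B, b n • x n)

end Defs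

open Pool.Agent.R267 in
/-- **MP_f9d380_an, Q1 and Q2 (negated forms), with the optimal exponent.**  For every `t ≥ 2`
there is a normalized Schauder basis of a Banach space with `𝐋_m^ch ≤ 5 t` for all `m` while
`𝐠_m ≥ t²` and `𝛌_m ≥ t²` for `m = t²`. -/
theorem result (𝕜 : Type) [RCLike 𝕜] (t : ℕ) (ht : 2 ≤ t) :
    ∃ (X : Type) (_ : AddCommGroup X) (_ : Module 𝕜 X) (q : X → ℝ) (x : ℕ → X)
      (xs : ℕ → X →ₗ[𝕜] 𝕜),
      (∀ p : ℝ, 0 < p → p ≤ 1 → IsPBanach 𝕜 p q) ∧ IsNormalizedSchauderBasis q x xs ∧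
      (∀ m, ChebyshevBound q x xs m (5 * t)) ∧
      (∀ C : ℝ, QuasiGreedyBound q x xs (t ^ 2) C → (t : ℝ) ^ 2 ≤ C) ∧
      (∀ C : ℝ, SqueezeSymmetryBound q x xs (t ^ 2) C → (t : ℝ) ^ 2 ≤ C) := by
  classical
  have ht1 : 1 ≤ t := by omega
  have hqe : ∀ n, CH.q t (CH.e n : CH.C0 𝕜) = 1 := by
    intro n
    apply le_antisymm
    · apply CH.q_le t _ _ zero_le_one
      · intro i
        rw [CH.es_e]
        split_ifs
        · rw [norm_one]
        · rw [norm_zero]; exact zero_le_one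
      · unfold CH.F
        have h : ∀ i ∈ Finset.range (CH.NN t), (-1 : 𝕜) ^ i * CH.es i (CH.e n : CH.C0 𝕜) =
            if i = n then (-1 : 𝕜) ^ i else 0 := by
          intro i _
          rw [CH.es_e, mul_ite, mul_one, mul_zero]
        rw [Finset.sum_congr rfl h, Finset.sum_ite_eq']
        split_ifs
        · rw [CH.norm_pow']
        · rw [norm_zero]; exact zero_le_one
      · intro D _ _
        have h : ∀ i ∈ D, ‖CH.es i (CH.e n : CH.C0 𝕜)‖ = if i = n then 1 else 0 := by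
          intro i _
          rw [CH.es_e]
          split_ifs
          · exact norm_one
          · exact norm_zero
        rw [Finset.sum_congr rfl h, Finset.sum_ite_eq']
        split_ifs
        · exact le_rfl
        · exact zero_le_one
    · have h := CH.es_le_q t n (CH.e n : CH.C0 𝕜)
      rwa [CH.es_e, if_pos rfl, norm_one] at h
  have hNN : (0 : ℝ) < (CH.NN t : ℝ) := by
    have : 0 < CH.NN t := by unfold CH.NN; positivity
    exact_mod_cast this
  -- the test vector and its greedy set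
  have hgr : IsGreedySet (CH.es (𝕜 := 𝕜)) (CH.tv 𝕜 t) (CH.EV t) := by
    intro n hn k _
    rw [CH.es_tv, CH.es_tv, if_pos (CH.EV_sub t hn), norm_one]
    split_ifs
    · rw [norm_one]
    · rw [norm_zero]; exact zero_le_one
  have htv := CH.q_tv (𝕜 := 𝕜) t
  have htv0 := CH.q_nonneg t (CH.tv 𝕜 t)
  have hEV := CH.q_EV (𝕜 := 𝕜) t
  have ht0 : (0 : ℝ) < (t : ℝ) ^ 2 := by positivity
  have hfin : ∀ C : ℝ, (t : ℝ) ^ 2 ≤ C * CH.q t (CH.tv 𝕜 t) → (t : ℝ) ^ 2 ≤ C := by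
    intro C h
    have hC : 0 < C := by
      by_contra hC
      push Not at hC
      nlinarith
    nlinarith
  refine ⟨CH.C0 𝕜, inferInstance, inferInstance, CH.q t, CH.e, CH.es, ?_, ?_, ?_, ?_, ?_⟩
  · intro p hp hp1
    refine ⟨CH.q_nonneg t, fun x hx => ?_, CH.q_smul t, fun x y => ?_, fun u hu => ?_⟩
    · have h := CH.norm_le_q t x
      rw [hx] at h
      exact norm_le_zero_iff.mp h
    · refine (Real.rpow_le_rpow (CH.q_nonneg t _) (CH.q_add t x y) hp.le).trans ?_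
      exact Real.rpow_add_le_add_rpow (CH.q_nonneg t x) (CH.q_nonneg t y) hp.le hp1
    · have hc : CauchySeq u := by
        rw [Metric.cauchySeq_iff]
        intro ε hε
        obtain ⟨N, hN⟩ := hu ε hε
        refine ⟨N, fun m hm n hn => ?_⟩
        rw [dist_eq_norm]
        exact lt_of_le_of_lt (CH.norm_le_q t _) (hN m hm n hn)
      obtain ⟨y, hy⟩ := cauchySeq_tendsto_of_complete hc
      refine ⟨y, fun ε hε => ?_⟩
      rw [Metric.tendsto_atTop] at hy
      obtain ⟨N, hN⟩ := hy (ε / CH.NN t) (by positivity)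
      refine ⟨N, fun n hn => ?_⟩
      have h1 := hN n hn
      rw [dist_eq_norm, lt_div_iff₀ hNN] at h1
      refine lt_of_le_of_lt (CH.q_upper ht1 _) ?_
      linarith
  · refine ⟨fun f ε hε => ?_, CH.es_e, fun f hf => ?_, hqe, fun n f => CH.es_le_q t n f,
      ⟨CH.NN t, fun m f => ?_⟩⟩
    · have h : f ∈ (Submodule.span 𝕜 (Set.range (CH.e (𝕜 := 𝕜)))).topologicalClosure := by
        rw [CH.dense]; trivial
      rw [← SetLike.mem_coe, Submodule.topologicalClosure_coe, Metric.mem_closure_iff] at h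
      obtain ⟨g, hg, hfg⟩ := h (ε / CH.NN t) (by positivity)
      refine ⟨g, hg, ?_⟩
      rw [dist_eq_norm, lt_div_iff₀ hNN] at hfg
      refine lt_of_le_of_lt (CH.q_upper ht1 _) ?_
      linarith
    · apply CH.ext'
      intro i
      rw [hf i, map_zero]
    · refine (CH.q_upper ht1 _).trans (mul_le_mul_of_nonneg_left ?_ hNN.le)
      apply CH.norm_le_of _ _ (CH.q_nonneg t f)
      intro i
      unfold proj
      rw [CH.es_sum (Finset.range m) (fun n => CH.es n f) i]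
      split_ifs
      · exact CH.es_le_q t i f
      · rw [norm_zero]; exact CH.q_nonneg t f
  · intro m f A hA hAm B b hB
    exact CH.cheb ht f A B b hA (by rw [hAm]; exact hB)
  · intro C hC
    have h := hC (CH.tv 𝕜 t) (CH.EV t) hgr (CH.EV_card t).le
    have h2 : proj (CH.e (𝕜 := 𝕜)) CH.es (CH.EV t) (CH.tv 𝕜 t) =
        ∑ i ∈ CH.EV t, (1 : 𝕜) • CH.e i := by
      unfold proj
      apply Finset.sum_congr rfl
      intro i hi
      rw [CH.es_tv, if_pos (CH.EV_sub t hi)]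
    rw [h2] at h
    exact hfin C (hEV.trans h)
  · intro C hC
    have hne : (CH.EV t).Nonempty := by
      rw [← Finset.card_pos, CH.EV_card]
      positivity
    obtain ⟨n0, hn0⟩ := hne
    have h1 : ∀ n ∈ CH.EV t, ‖CH.es n (CH.tv 𝕜 t)‖ = 1 := by
      intro n hn
      rw [CH.es_tv, if_pos (CH.EV_sub t hn), norm_one]
    have h := hC (CH.tv 𝕜 t) (CH.EV t) (CH.EV t) (fun _ => 1) 1 (fun _ _ => norm_one) hgr rfl
      (CH.EV_card t).le (fun n hn => (h1 n hn).ge) ⟨n0, hn0, (h1 n0 hn0).symm⟩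
    rw [one_mul] at h
    exact hfin C (hEV.trans h)

end Pool.Agent.Results.MP_f9d380_an.ExponentTwoSharp
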